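import Mathlib

/-!
The tolerant learning hierarchy is dense.
-/

namespace Pool.Agent.Results.MP_555fce_lc.Dense

open Nat.Partrec (Code)

/-- The `e`-th computably enumerable set. -/
def W (e : ℕ) : Set ℕ := {n | ((Denumerable.ofNat Code e).eval n).Dom}

/-- A tolerance relation: an equivalence relation on indices which identifies indices of the same
set. -/
def IsTolerance (E : Setoid ℕ) : Prop := ∀ e e', W e = W e' → E e e'

/-- The initial segment of length `s`. -/
def pre (μ : ℕ → ℕ) (s : ℕ) : List ℕ := (List.range s).map μ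

/-- A family of nonempty computably enumerable sets. -/
def IsFamily (K : Set (Set ℕ)) : Prop := ∀ A ∈ K, A.Nonempty ∧ ∃ e, A = W e

/-- The family `K` is `E`-learnable. -/
def Learnable (E : Setoid ℕ) (K : Set (Set ℕ)) : Prop :=
  ∃ M : List ℕ → ℕ, ∀ e, W e ∈ K → ∀ μ : ℕ → ℕ, Set.range μ = W e →
    ∃ i, (∃ s₀, ∀ s, s₀ ≤ s → M (pre μ s) = i) ∧ E i e

/-- Learning reducibility of tolerance relations. -/
def LE (E F : Setoid ℕ) : Prop := ∀ K : Set (Set ℕ), IsFamily K → Learnable E K → Learnable F K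

/-- Strict learning reducibility. -/
def LT (E F : Setoid ℕ) : Prop := LE E F ∧ ¬ LE F E

/-! ### Sequences -/

/-- a word followed by a sequence -/
def ext (σ : List ℕ) (ν : ℕ → ℕ) (i : ℕ) : ℕ := (σ[i]?).getD (ν (i - σ.length))

theorem pre_ext (σ : List ℕ) (ν : ℕ → ℕ) (k : ℕ) : pre (ext σ ν) (σ.length + k) = σ ++ pre ν k := by
  apply List.ext_getElem
  · simp [pre]
  · intro i h1 h2
    simp only [pre, List.getElem_map, List.getElem_range, ext]
    by_cases h : i < σ.length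
    · rw [List.getElem_append_left h]
      simp [h]
    · rw [List.getElem_append_right (by omega)]
      rw [List.getElem?_eq_none (by omega)]
      simp

theorem range_ext (σ : List ℕ) (ν : ℕ → ℕ) : Set.range (ext σ ν) = {x | x ∈ σ} ∪ Set.range ν := by
  ext x
  constructor
  · rintro ⟨i, rfl⟩
    by_cases h : i < σ.length
    · left
      simp [ext, h]
    · right
      refine ⟨i - σ.length, ?_⟩
      simp only [ext]
      rw [List.getElem?_eq_none (by omega)]
      rfl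
  · rintro (h | ⟨j, rfl⟩)
    · obtain ⟨i, hi, rfl⟩ := List.getElem_of_mem h
      exact ⟨i, by simp [ext, hi]⟩
    · refine ⟨σ.length + j, ?_⟩
      simp only [ext]
      rw [List.getElem?_eq_none (by omega)]
      simp

theorem exists_enum {A : Set ℕ} (h : A.Nonempty) : ∃ ν : ℕ → ℕ, Set.range ν = A := by
  obtain ⟨ν, hν⟩ := (Set.to_countable A).exists_eq_range h
  exact ⟨ν, hν.symm⟩

/-- existence of locking sequences -/
theorem exists_locking (M : List ℕ → ℕ) {A : Set ℕ} (hA : A.Nonempty)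
    (hM : ∀ μ : ℕ → ℕ, Set.range μ = A → ∃ i s₀, ∀ s, s₀ ≤ s → M (pre μ s) = i) :
    ∃ σ : List ℕ, (∀ x ∈ σ, x ∈ A) ∧ ∀ τ : List ℕ, (∀ x ∈ τ, x ∈ A) → M (σ ++ τ) = M σ := by
  by_contra hno
  push Not at hno
  obtain ⟨ν, hν⟩ := exists_enum hA
  have hνA : ∀ n, ν n ∈ A := fun n => hν ▸ Set.mem_range_self n
  choose τ hτ1 hτ2 using hno
  -- the sequence of words
  let next : ℕ → {σ : List ℕ // ∀ x ∈ σ, x ∈ A} → {σ : List ℕ // ∀ x ∈ σ, x ∈ A} := fun n σ =>
    have h : ∀ x ∈ σ.1 ++ [ν n], x ∈ A := by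
      intro x hx
      rcases List.mem_append.1 hx with hx | hx
      · exact σ.2 x hx
      · rw [List.mem_singleton.1 hx]; exact hνA n
    ⟨(σ.1 ++ [ν n]) ++ τ _ h, by
      intro x hx
      rcases List.mem_append.1 hx with hx | hx
      · exact h x hx
      · exact hτ1 _ h x hx⟩
  let S : ℕ → {σ : List ℕ // ∀ x ∈ σ, x ∈ A} := fun n =>
    Nat.rec ⟨[], by simp⟩ (fun n σ => next n σ) n
  have hS : ∀ n, ∃ ρ : List ℕ, (S (n + 1)).1 = ((S n).1 ++ [ν n]) ++ ρ ∧
      M ((S n).1 ++ [ν n]) ≠ M (S (n + 1)).1 := by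
    intro n
    have h : ∀ x ∈ (S n).1 ++ [ν n], x ∈ A := by
      intro x hx
      rcases List.mem_append.1 hx with hx | hx
      · exact (S n).2 x hx
      · rw [List.mem_singleton.1 hx]; exact hνA n
    exact ⟨τ _ h, rfl, fun h' => hτ2 _ h h'.symm⟩
  have hpre : ∀ n, (S n).1 <+: (S (n + 1)).1 := by
    intro n
    obtain ⟨ρ, h1, -⟩ := hS n
    rw [h1, List.append_assoc]
    exact List.prefix_append _ _
  have hmono : ∀ m n, m ≤ n → (S m).1 <+: (S n).1 := by
    intro m n hmn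
    induction hmn with
    | refl => exact List.prefix_rfl
    | step _ ih => exact ih.trans (hpre _)
  have hlen : ∀ n, n ≤ (S n).1.length := by
    intro n
    induction n with
    | zero => omega
    | succ n ih =>
      obtain ⟨ρ, h1, -⟩ := hS n
      rw [h1]
      simp only [List.length_append, List.length_singleton]
      omega
  let μ : ℕ → ℕ := fun i => ((S (i + 1)).1[i]?).getD 0
  have hget : ∀ n i, i < (S n).1.length → (S n).1[i]? = some (μ i) := by
    intro n i hi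
    have hi' : i < (S (i + 1)).1.length := lt_of_lt_of_le (Nat.lt_succ_self i) (hlen _)
    have h1 : (S (i + 1)).1[i]? = some (μ i) := by
      simp only [μ]
      rw [List.getElem?_eq_getElem hi']
      rfl
    rcases Nat.le_total n (i + 1) with h | h
    · obtain ⟨ρ, hρ⟩ := hmono _ _ h
      rw [← hρ, List.getElem?_append_left hi] at h1
      exact h1
    · obtain ⟨ρ, hρ⟩ := hmono _ _ h
      rw [← hρ, List.getElem?_append_left hi']
      exact h1
  have hword : ∀ n ρ, ρ <+: (S n).1 → ρ = pre μ ρ.length := by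
    intro n ρ hρ
    apply List.ext_getElem
    · simp [pre]
    · intro i h1 h2
      have h3 : i < (S n).1.length := lt_of_lt_of_le h1 hρ.length_le
      have h4 := hget n i h3
      rw [List.getElem?_eq_getElem h3] at h4
      have h5 : ρ[i] = (S n).1[i] := hρ.getElem h1
      simp only [pre, List.getElem_map, List.getElem_range]
      rw [h5]
      exact Option.some.inj h4
  have hrange : Set.range μ = A := by
    apply Set.eq_of_subset_of_subset
    · rintro x ⟨i, rfl⟩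
      have h1 := hget (i + 1) i (lt_of_lt_of_le (Nat.lt_succ_self i) (hlen _))
      exact (S (i + 1)).2 _ (List.mem_of_getElem? h1)
    · intro x hx
      rw [← hν] at hx
      obtain ⟨n, rfl⟩ := hx
      obtain ⟨ρ, h1, -⟩ := hS n
      have h2 : (S n).1.length < (S (n + 1)).1.length := by
        rw [h1]; simp only [List.length_append, List.length_singleton]; omega
      have h3 := hget (n + 1) (S n).1.length h2
      refine ⟨(S n).1.length, ?_⟩
      rw [h1, List.append_assoc, List.getElem?_append_right le_rfl] at h3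
      simp only [Nat.sub_self, List.singleton_append, List.getElem?_cons_zero,
        Option.some.injEq] at h3
      exact h3.symm
  obtain ⟨i, s₀, hs⟩ := hM μ hrange
  obtain ⟨ρ, h1, h2⟩ := hS s₀
  have h3 : (S s₀).1 ++ [ν s₀] <+: (S (s₀ + 1)).1 := by
    rw [h1]; exact List.prefix_append _ _
  have e1 := hword (s₀ + 1) _ h3
  have e2 := hword (s₀ + 1) (S (s₀ + 1)).1 List.prefix_rfl
  have m1 := hs ((S s₀).1 ++ [ν s₀]).length (by
    have := hlen s₀
    simp only [List.length_append, List.length_singleton]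
    omega)
  have m2 := hs (S (s₀ + 1)).1.length ((Nat.le_succ _).trans (hlen _))
  rw [← e1] at m1
  rw [← e2] at m2
  exact h2 (m1.trans m2.symm)

/-- the combinatorial condition for learnability -/
def Cond (E : Setoid ℕ) (K : Set (Set ℕ)) : Prop :=
  ∀ a, W a ∈ K → ∃ D : Finset ℕ, (↑D : Set ℕ) ⊆ W a ∧
    ∀ b, W b ∈ K → (↑D : Set ℕ) ⊆ W b → W b ⊆ W a → E b a

theorem cond_of_learnable {E : Setoid ℕ} {K : Set (Set ℕ)} (hK : IsFamily K)
    (h : Learnable E K) : Cond E K := by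
  obtain ⟨M, hM⟩ := h
  intro a ha
  obtain ⟨σ, hσ1, hσ2⟩ := exists_locking M (hK _ ha).1 (fun μ hμ => by
    obtain ⟨i, ⟨s₀, h1⟩, -⟩ := hM a ha μ hμ
    exact ⟨i, s₀, h1⟩)
  refine ⟨σ.toFinset, fun x hx => hσ1 x (by simpa using hx), fun b hb h1 h2 => ?_⟩
  have key : ∀ b, W b ∈ K → (∀ x ∈ σ, x ∈ W b) → W b ⊆ W a → E (M σ) b := by
    intro b hb h1 h2
    obtain ⟨ν, hν⟩ := exists_enum (hK _ hb).1
    obtain ⟨i, ⟨s₀, h3⟩, h4⟩ := hM b hb (ext σ ν) (by
      rw [range_ext, hν]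
      exact Set.union_eq_self_of_subset_left h1)
    have h5 := h3 (σ.length + s₀) (by omega)
    rw [pre_ext, hσ2] at h5
    · rw [h5]; exact h4
    · intro x hx
      apply h2
      rw [← hν]
      simp only [pre, List.mem_map] at hx
      obtain ⟨j, -, rfl⟩ := hx
      exact Set.mem_range_self j
  have e1 := key a ha hσ1 le_rfl
  have e2 := key b hb (fun x hx => h1 (by simpa using hx)) h2
  exact E.trans (E.symm e2) e1

theorem learnable_of_cond {E : Setoid ℕ} {K : Set (Set ℕ)} (h : Cond E K) : Learnable E K := by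
  classical
  choose D hD1 hD2 using h
  let cand : List ℕ → ℕ → Prop := fun σ e =>
    ∃ h : W e ∈ K, (∀ x ∈ D e h, x ∈ σ) ∧ ∀ x ∈ σ, x ∈ W e
  let M : List ℕ → ℕ := fun σ => if h : ∃ e, cand σ e then Nat.find h else 0
  refine ⟨M, fun b hb μ hμ => ?_⟩
  have hex : ∃ e, ∃ h : W e ∈ K, (↑(D e h) : Set ℕ) ⊆ W b ∧ W b ⊆ W e :=
    ⟨b, hb, hD1 b hb, le_rfl⟩
  set e0 := Nat.find hex with he0
  obtain ⟨hK0, h1, h2⟩ := Nat.find_spec hex
  have hmem : ∀ s x, x ∈ pre μ s → x ∈ W b := by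
    intro s x hx
    rw [← hμ]
    simp only [pre, List.mem_map] at hx
    obtain ⟨j, -, rfl⟩ := hx
    exact Set.mem_range_self j
  have happ : ∀ x ∈ W b, ∃ s₀, ∀ s, s₀ ≤ s → x ∈ pre μ s := by
    intro x hx
    rw [← hμ] at hx
    obtain ⟨j, rfl⟩ := hx
    refine ⟨j + 1, fun s hs => ?_⟩
    simp only [pre, List.mem_map, List.mem_range]
    exact ⟨j, by omega, rfl⟩
  -- the candidates below `e0` disappear
  have hbelow : ∀ k ≤ e0, ∃ s₀, ∀ s, s₀ ≤ s → ∀ e < k, ¬ cand (pre μ s) e := by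
    intro k
    induction k with
    | zero => intro _; exact ⟨0, fun s _ e he => absurd he (Nat.not_lt_zero e)⟩
    | succ k ih =>
      intro hk
      obtain ⟨s1, hs1⟩ := ih (by omega)
      have hkn : ¬ ∃ h : W k ∈ K, (↑(D k h) : Set ℕ) ⊆ W b ∧ W b ⊆ W k :=
        Nat.find_min hex (by omega)
      have : ∃ s2, ∀ s, s2 ≤ s → ¬ cand (pre μ s) k := by
        by_cases hsub : W b ⊆ W k
        · refine ⟨0, fun s _ hc => ?_⟩
          obtain ⟨hk', h3, -⟩ := hc
          exact hkn ⟨hk', fun x hx => hmem s x (h3 x hx), hsub⟩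
        · obtain ⟨x, hx1, hx2⟩ := Set.not_subset.1 hsub
          obtain ⟨s2, hs2⟩ := happ x hx1
          refine ⟨s2, fun s hs hc => ?_⟩
          obtain ⟨hk', -, h4⟩ := hc
          exact hx2 (h4 x (hs2 s hs))
      obtain ⟨s2, hs2⟩ := this
      refine ⟨max s1 s2, fun s hs e he => ?_⟩
      rcases Nat.lt_succ_iff_lt_or_eq.1 he with h5 | h5
      · exact hs1 s (le_trans (le_max_left _ _) hs) e h5
      · rw [h5]; exact hs2 s (le_trans (le_max_right _ _) hs)
  obtain ⟨s1, hs1⟩ := hbelow e0 le_rfl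
  have hfin : ∃ s2, ∀ s, s2 ≤ s → ∀ x ∈ D e0 hK0, x ∈ pre μ s := by
    have : ∀ T : Finset ℕ, (↑T : Set ℕ) ⊆ W b → ∃ s2, ∀ s, s2 ≤ s → ∀ x ∈ T, x ∈ pre μ s := by
      intro T
      induction T using Finset.induction_on with
      | empty => intro _; exact ⟨0, by simp⟩
      | insert a T ha ih =>
        intro hT
        obtain ⟨s2, hs2⟩ := ih (fun x hx => hT (by simp [Finset.mem_coe.1 hx]))
        obtain ⟨s3, hs3⟩ := happ a (hT (by simp))
        refine ⟨max s2 s3, fun s hs x hx => ?_⟩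
        rcases Finset.mem_insert.1 hx with rfl | hx
        · exact hs3 s (le_trans (le_max_right _ _) hs)
        · exact hs2 s (le_trans (le_max_left _ _) hs) x hx
    exact this _ h1
  obtain ⟨s2, hs2⟩ := hfin
  refine ⟨e0, ⟨max s1 s2, fun s hs => ?_⟩, ?_⟩
  · have hc : cand (pre μ s) e0 := ⟨hK0, hs2 s (le_trans (le_max_right _ _) hs),
      fun x hx => h2 (hmem s x hx)⟩
    have hexs : ∃ e, cand (pre μ s) e := ⟨e0, hc⟩
    simp only [M]
    rw [dif_pos hexs, Nat.find_eq_iff]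
    exact ⟨hc, fun e he => hs1 s (le_trans (le_max_left _ _) hs) e he⟩
  · exact E.symm (hD2 e0 hK0 b hb h1 h2)

/-- the combinatorial condition for reducibility -/
theorem le_iff {E F : Setoid ℕ} (hE : IsTolerance E) : LE E F ↔
    ∀ a, (W a).Nonempty → ∃ D : Finset ℕ, (↑D : Set ℕ) ⊆ W a ∧
      ∀ b, (W b).Nonempty → (↑D : Set ℕ) ⊆ W b → W b ⊆ W a → E b a → F b a := by
  constructor
  · intro h a ha
    by_contra hno
    push Not at hno
    choose B hB1 hB2 hB3 hB4 hB5 using hno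
    let K : Set (Set ℕ) := {A | A = W a ∨ ∃ D h, A = W (B D h)}
    have hK : IsFamily K := by
      rintro A (rfl | ⟨D, h, rfl⟩)
      · exact ⟨ha, a, rfl⟩
      · exact ⟨hB1 D h, B D h, rfl⟩
    have hKE : ∀ e, W e ∈ K → E e a := by
      rintro e (h1 | ⟨D, h, h1⟩)
      · exact hE _ _ h1
      · exact E.trans (hE _ _ h1) (hB4 D h)
    have hlearn : Learnable E K :=
      ⟨fun _ => a, fun e he μ _ => ⟨a, ⟨0, fun _ _ => rfl⟩, E.symm (hKE e he)⟩⟩
    obtain ⟨D, h1, h2⟩ := cond_of_learnable hK (h K hK hlearn) a (Or.inl rfl)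
    exact hB5 D h1 (h2 _ (Or.inr ⟨D, h1, rfl⟩) (hB2 D h1) (hB3 D h1))
  · intro h K hK hE
    apply learnable_of_cond
    have h1 := cond_of_learnable hK hE
    intro a ha
    obtain ⟨D1, h2, h3⟩ := h1 a ha
    obtain ⟨D2, h4, h5⟩ := h a (hK _ ha).1
    refine ⟨D1 ∪ D2, by simpa using ⟨h2, h4⟩, fun b hb h6 h7 => ?_⟩
    have h8 : (↑D1 : Set ℕ) ⊆ W b := fun x hx => h6 (by simp [Finset.mem_coe.1 hx])
    have h9 : (↑D2 : Set ℕ) ⊆ W b := fun x hx => h6 (by simp [Finset.mem_coe.1 hx])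
    exact h5 b (hK _ hb).1 h9 h7 (h3 b hb h8 h7)

theorem LE.trans {E F G : Setoid ℕ} (h1 : LE E F) (h2 : LE F G) : LE E G :=
  fun K hK h => h2 K hK (h1 K hK h)

theorem LE_of_le {E F : Setoid ℕ} (h : ∀ x y, E x y → F x y) : LE E F := by
  rintro K hK ⟨M, hM⟩
  refine ⟨M, fun e he μ hμ => ?_⟩
  obtain ⟨i, h1, h2⟩ := hM e he μ hμ
  exact ⟨i, h1, h _ _ h2⟩

/-- the intersection of `F` with the partition into a set and its complement -/
def splitBy (F : Setoid ℕ) (R : Set ℕ) : Setoid ℕ where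
  r x y := F x y ∧ (x ∈ R ↔ y ∈ R)
  iseqv := ⟨fun x => ⟨F.refl x, Iff.rfl⟩, fun h => ⟨F.symm h.1, h.2.symm⟩,
    fun h h' => ⟨F.trans h.1 h'.1, h.2.trans h'.2⟩⟩

/-- Density below, for a pair with `E ⊆ F`. -/
theorem dense_of_le {E F : Setoid ℕ} (hE : IsTolerance E) (hF : IsTolerance F)
    (hEF : ∀ x y, E x y → F x y) (hn : ¬ LE F E) :
    ∃ G : Setoid ℕ, IsTolerance G ∧ LT E G ∧ LT G F := by
  classical
  rw [le_iff hF] at hn
  push Not at hn
  obtain ⟨a, ha, hno⟩ := hn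
  choose B hB1 hB2 hB3 hB4 hB5 using hno
  -- each `B D` misses an element of `W a`
  have hmiss : ∀ D h, ∃ x, x ∈ W a ∧ x ∉ W (B D h) := by
    intro D h
    by_contra hcon
    push Not at hcon
    exact hB5 D h (hE _ _ (Set.Subset.antisymm (hB3 D h) hcon))
  choose m hm1 hm2 using hmiss
  -- the sequence of finite sets
  let next : ℕ → {D : Finset ℕ // (↑D : Set ℕ) ⊆ W a} → {D : Finset ℕ // (↑D : Set ℕ) ⊆ W a} :=
    fun n D => if hn : n ∈ W a then
      ⟨insert n (insert (m D.1 D.2) D.1), by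
        intro x hx
        simp only [Finset.coe_insert, Set.mem_insert_iff] at hx
        rcases hx with rfl | rfl | hx
        · exact hn
        · exact hm1 _ _
        · exact D.2 hx⟩
      else ⟨insert (m D.1 D.2) D.1, by
        intro x hx
        simp only [Finset.coe_insert, Set.mem_insert_iff] at hx
        rcases hx with rfl | hx
        · exact hm1 _ _
        · exact D.2 hx⟩
  let S : ℕ → {D : Finset ℕ // (↑D : Set ℕ) ⊆ W a} := fun n =>
    Nat.rec ⟨∅, by simp⟩ (fun n D => next n D) n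
  have hSs : ∀ n, S (n + 1) = next n (S n) := fun n => rfl
  have hsub : ∀ n, (S n).1 ⊆ (S (n + 1)).1 := by
    intro n x hx
    rw [hSs]
    simp only [next]
    split_ifs
    · simp [hx]
    · simp [hx]
  have hmem : ∀ n, m (S n).1 (S n).2 ∈ (S (n + 1)).1 := by
    intro n
    rw [hSs]
    simp only [next]
    split_ifs <;> simp
  have hn' : ∀ n, n ∈ W a → n ∈ (S (n + 1)).1 := by
    intro n hn
    rw [hSs]
    simp only [next]
    rw [dif_pos hn]
    simp
  have hmono : ∀ i j, i ≤ j → (S i).1 ⊆ (S j).1 := by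
    intro i j hij
    induction hij with
    | refl => exact le_rfl
    | step _ ih => exact ih.trans (hsub _)
  have hcover : ∀ D : Finset ℕ, (↑D : Set ℕ) ⊆ W a → ∃ n, D ⊆ (S n).1 := by
    intro D hD
    refine ⟨D.sup id + 1, fun x hx => ?_⟩
    have h1 : x ≤ D.sup id := Finset.le_sup (f := id) hx
    exact hmono (x + 1) (D.sup id + 1) (Nat.succ_le_succ h1) (hn' x (hD hx))
  let b : ℕ → ℕ := fun n => B (S n).1 (S n).2
  have hb1 : ∀ n, (W (b n)).Nonempty := fun n => hB1 _ _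
  have hb2 : ∀ n, (↑(S n).1 : Set ℕ) ⊆ W (b n) := fun n => hB2 _ _
  have hb3 : ∀ n, W (b n) ⊆ W a := fun n => hB3 _ _
  have hb4 : ∀ n, F (b n) a := fun n => hB4 _ _
  have hb5 : ∀ n, ¬ E (b n) a := fun n => hB5 _ _
  -- the intervals are separated
  have hsep : ∀ i j, i < j → ¬ W (b j) ⊆ W (b i) ∧ ¬ (↑(S j).1 : Set ℕ) ⊆ W (b i) := by
    intro i j hij
    have h1 : m (S i).1 (S i).2 ∈ (S j).1 := hmono (i + 1) j hij (hmem i)
    have h2 : m (S i).1 (S i).2 ∉ W (b i) := hm2 _ _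
    exact ⟨fun h => h2 (h (hb2 j h1)), fun h => h2 (h h1)⟩
  let R : Set ℕ := {x | ∃ n, Even n ∧ (↑(S n).1 : Set ℕ) ⊆ W x ∧ W x ⊆ W (b n) ∧ E x (b n)}
  have hRa : a ∉ R := by
    rintro ⟨n, -, -, -, h⟩
    exact hb5 n (E.symm h)
  have hReven : ∀ n, Even n → b n ∈ R := fun n hn => ⟨n, hn, hb2 n, le_rfl, E.refl _⟩
  have hRodd : ∀ n, ¬ Even n → b n ∉ R := by
    rintro n hn ⟨k, hk, h1, h2, -⟩
    rcases Nat.lt_trichotomy n k with h | h | h
    · exact (hsep n k h).2 h1
    · subst h; exact hn hk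
    · exact (hsep k n h).1 h2
  refine ⟨splitBy F R, ?_, ⟨?_, ?_⟩, ?_, ?_⟩
  · -- tolerance
    intro e e' he
    refine ⟨hF _ _ he, ?_⟩
    have hee := hE _ _ he
    constructor
    · rintro ⟨n, hn, h1, h2, h3⟩
      exact ⟨n, hn, he ▸ h1, he ▸ h2, E.trans (E.symm hee) h3⟩
    · rintro ⟨n, hn, h1, h2, h3⟩
      exact ⟨n, hn, he ▸ h1, he ▸ h2, E.trans hee h3⟩
  · -- `E ≤ G`
    rw [le_iff hE]
    intro x hx
    by_cases hxR : x ∈ R
    · obtain ⟨n, hn, h1, h2, h3⟩ := hxR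
      refine ⟨(S n).1, h1, fun y _ h4 h5 h6 => ⟨hEF _ _ h6, ?_⟩⟩
      exact iff_of_true ⟨n, hn, h4, h5.trans h2, E.trans h6 h3⟩ ⟨n, hn, h1, h2, h3⟩
    · by_contra hno
      push Not at hno
      -- for every finite `D` there is a member of `R`
      have hno' : ∀ D : Finset ℕ, (↑D : Set ℕ) ⊆ W x → ∃ n, Even n ∧
          (↑(S n).1 : Set ℕ) ⊆ W x ∧ (↑D : Set ℕ) ⊆ W (b n) ∧ E x (b n) := by
        intro D hD
        obtain ⟨y, -, h2, h3, h4, h5⟩ := hno D hD
        have hyR : y ∈ R := by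
          by_contra hy
          exact h5 ⟨hEF _ _ h4, iff_of_false hy hxR⟩
        obtain ⟨n, hn, h6, h7, h8⟩ := hyR
        exact ⟨n, hn, h6.trans h3, h2.trans h7, E.trans (E.symm h4) h8⟩
      -- `W x ⊆ W a`
      have hxa : W x ⊆ W a := by
        intro z hz
        obtain ⟨n, -, -, h2, -⟩ := hno' {z} (by simpa using hz)
        exact hb3 n (h2 (by simp))
      by_cases hbd : ∃ N, ∀ n, (↑(S n).1 : Set ℕ) ⊆ W x → n < N
      · -- one `n` works for all `D`
        obtain ⟨N, hN⟩ := hbd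
        have : ∃ n, n < N ∧ Even n ∧ (↑(S n).1 : Set ℕ) ⊆ W x ∧ W x ⊆ W (b n) ∧ E x (b n) := by
          by_contra hcon
          push Not at hcon
          have hw : ∀ n, n < N → ∃ z, z ∈ W x ∧
              ¬ (Even n ∧ (↑(S n).1 : Set ℕ) ⊆ W x ∧ z ∈ W (b n) ∧ E x (b n)) := by
            intro n hn
            by_cases hc : Even n ∧ (↑(S n).1 : Set ℕ) ⊆ W x ∧ E x (b n)
            · have h1 : ¬ W x ⊆ W (b n) := fun h => hcon n hn hc.1 hc.2.1 h hc.2.2
              obtain ⟨z, hz1, hz2⟩ := Set.not_subset.1 h1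
              exact ⟨z, hz1, fun h => hz2 h.2.2.1⟩
            · obtain ⟨z, hz⟩ := hx
              exact ⟨z, hz, fun h => hc ⟨h.1, h.2.1, h.2.2.2⟩⟩
          choose z hz1 hz2 using hw
          let D : Finset ℕ := (Finset.range N).attach.image
            fun n => z n.1 (Finset.mem_range.1 n.2)
          obtain ⟨n, h1, h2, h3, h4⟩ := hno' D (by
            intro y hy
            simp only [D, Finset.coe_image, Set.mem_image] at hy
            obtain ⟨n, -, rfl⟩ := hy
            exact hz1 _ _)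
          refine hz2 n (hN n h2) ⟨h1, h2, h3 ?_, h4⟩
          simp only [D, Finset.coe_image, Set.mem_image]
          exact ⟨⟨n, Finset.mem_range.2 (hN n h2)⟩, by simp, rfl⟩
        obtain ⟨n, -, h1, h2, h3, h4⟩ := this
        exact hxR ⟨n, h1, h2, h3, h4⟩
      · -- `W x = W a`
        push Not at hbd
        have hax : W a ⊆ W x := by
          intro z hz
          obtain ⟨n, h1, h2⟩ := hbd (z + 1)
          exact h1 (hmono _ _ h2 (hn' z hz))
        have hxe : E x a := hE _ _ (Set.Subset.antisymm hxa hax)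
        obtain ⟨n, -, -, -, h4⟩ := hno' ∅ (by simp)
        exact hb5 n (E.trans (E.symm h4) hxe)
  · -- `¬ G ≤ E`
    intro h
    have hG : IsTolerance (splitBy F R) := by
      intro e e' he
      refine ⟨hF _ _ he, ?_⟩
      have hee := hE _ _ he
      constructor
      · rintro ⟨n, hn, h1, h2, h3⟩
        exact ⟨n, hn, he ▸ h1, he ▸ h2, E.trans (E.symm hee) h3⟩
      · rintro ⟨n, hn, h1, h2, h3⟩
        exact ⟨n, hn, he ▸ h1, he ▸ h2, E.trans hee h3⟩
    rw [le_iff hG] at h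
    obtain ⟨D, h1, h2⟩ := h a ha
    obtain ⟨n, hn⟩ := hcover D h1
    have h3 : D ⊆ (S (2 * n + 1)).1 := hn.trans (hmono n (2 * n + 1) (by omega))
    have hodd : ¬ Even (2 * n + 1) := by
      rw [Nat.not_even_iff_odd]; exact ⟨n, rfl⟩
    have q1 : (↑D : Set ℕ) ⊆ W (b (2 * n + 1)) := fun x hx => hb2 (2 * n + 1) (h3 hx)
    have q2 : splitBy F R (b (2 * n + 1)) a :=
      ⟨hb4 (2 * n + 1), iff_of_false (hRodd (2 * n + 1) hodd) hRa⟩
    exact hb5 (2 * n + 1) (h2 (b (2 * n + 1)) (hb1 (2 * n + 1)) q1 (hb3 (2 * n + 1)) q2)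
  · -- `G ≤ F`
    exact LE_of_le fun x y h => h.1
  · -- `¬ F ≤ G`
    intro h
    rw [le_iff hF] at h
    obtain ⟨D, h1, h2⟩ := h a ha
    obtain ⟨n, hn⟩ := hcover D h1
    have h3 : D ⊆ (S (2 * n)).1 := hn.trans (hmono n (2 * n) (by omega))
    have q1 : (↑D : Set ℕ) ⊆ W (b (2 * n)) := fun x hx => hb2 (2 * n) (h3 hx)
    have h4 := h2 (b (2 * n)) (hb1 (2 * n)) q1 (hb3 (2 * n)) (hb4 (2 * n))
    exact hRa (h4.2.1 (hReven (2 * n) ⟨n, by ring⟩))

/-- The tolerant learning hierarchy is dense. -/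
theorem result (E F : Setoid ℕ) (hE : IsTolerance E) (hF : IsTolerance F) (h : LT E F) :
    ∃ G : Setoid ℕ, IsTolerance G ∧ LT E G ∧ LT G F := by
  -- replace `E` by its intersection with `F`
  have hI : IsTolerance (E ⊓ F) := fun e e' he => ⟨hE _ _ he, hF _ _ he⟩
  have h1 : LE E (E ⊓ F) := by
    rw [le_iff hE]
    intro a ha
    obtain ⟨D, h2, h3⟩ := (le_iff hE).1 h.1 a ha
    exact ⟨D, h2, fun b hb h4 h5 h6 => ⟨h6, h3 b hb h4 h5 h6⟩⟩
  have h2 : LE (E ⊓ F) E := LE_of_le fun x y h => h.1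
  obtain ⟨G, hG, ⟨g1, g2⟩, g3⟩ := dense_of_le (E := E ⊓ F) (F := F) hI hF (fun x y h => h.2)
    (fun h' => h.2 (h'.trans h2))
  exact ⟨G, hG, ⟨h1.trans g1, fun h' => g2 (h'.trans h1)⟩, g3⟩

end Pool.Agent.Results.MP_555fce_lc.Dense
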